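import Pool.Agent.Y105.RS.Stm

/-!
# RS-IND: induced permutation and separation under a transposition
-/

set_option autoImplicit false

open Finset Equiv

namespace Pool.Agent.Y436.RS

open Pool.Agent.Y105.RS

/-- `b j` is the first point of the range of `b` on the orbit of `b i`, reached at time `n`
(as in `Pool.Agent.TH268.PD.FirstRet`) -/
def FirstRet {V : Type} {k : ℕ} (b : Fin k → V) (g : Perm V) (i j : Fin k) (n : ℕ) : Prop :=
  1 ≤ n ∧ (g ^ n) (b i) = b j ∧ ∀ p, 1 ≤ p → p < n → (g ^ p) (b i) ∉ Set.range b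

lemma swap_pow {V : Type} [DecidableEq V] {k : ℕ} {b : Fin k → V} {g : Perm V} {i j l m : Fin k}
    {n : ℕ} (h : FirstRet b g l m n) : ∀ p, p < n →
      ((swap (b i) (b j) * g) ^ p) (b l) = (g ^ p) (b l) := by
  intro p
  induction p with
  | zero => intro _; rfl
  | succ p ih =>
    intro hp
    rw [pow_succ', Perm.mul_apply, ih (by omega), Perm.mul_apply, ← Perm.mul_apply g,
      ← pow_succ' g]
    have := h.2.2 (p + 1) (by omega) hp
    apply swap_apply_of_ne_of_ne
    · intro e; exact this ⟨i, e.symm⟩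
    · intro e; exact this ⟨j, e.symm⟩

lemma FirstRet.swap {V : Type} [DecidableEq V] {k : ℕ} {b : Fin k → V}
    (hb : Function.Injective b) {g : Perm V} {i j l m : Fin k} {n : ℕ}
    (h : FirstRet b g l m n) :
    FirstRet b (Equiv.swap (b i) (b j) * g) l (Equiv.swap i j m) n := by
  refine ⟨h.1, ?_, fun p hp hpn => ?_⟩
  · obtain ⟨q, rfl⟩ : ∃ q, n = q + 1 := ⟨n - 1, by have := h.1; omega⟩
    rw [pow_succ', Perm.mul_apply, swap_pow h q (by omega), Perm.mul_apply, ← Perm.mul_apply g,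
      ← pow_succ' g, h.2.1]
    rcases eq_or_ne m i with rfl | hmi
    · simp
    rcases eq_or_ne m j with rfl | hmj
    · simp
    rw [swap_apply_of_ne_of_ne (hb.ne hmi) (hb.ne hmj), swap_apply_of_ne_of_ne hmi hmj]
  · rw [swap_pow h p hpn]
    exact h.2.2 p hp hpn

section sep

variable {V : Type} [DecidableEq V]

lemma fwd_unique {σ : Perm V} {D : Finset V} {a d d' : V} (h : Fwd σ D a d)
    (h' : Fwd σ D a d') : d = d' := by
  obtain ⟨hd, n, hn, hn'⟩ := h
  obtain ⟨hd', m, hm, hm'⟩ := h'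
  rcases lt_trichotomy n m with h | h | h
  · exact absurd (hn ▸ hd) (hm' n h)
  · rw [← hn, ← hm, h]
  · exact absurd (hm ▸ hd') (hn' m h)

lemma pow_eq {σ : Perm V} {D : Finset V} {a b d d' : V} (hdd : d ≠ d') (hb : Fwd σ D b d')
    {n : ℕ} (hd : d ∈ D) (hn : (σ ^ n) a = d) (hn' : ∀ p < n, (σ ^ p) a ∉ D) :
    ∀ p ≤ n, ((swap a b * σ) ^ p) a = (σ ^ p) a := by
  intro p
  induction p with
  | zero => intro _; rfl
  | succ p ih =>
    intro hp
    rw [pow_succ', Perm.mul_apply, ih (by omega), Perm.mul_apply, ← Perm.mul_apply σ,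
      ← pow_succ' σ]
    apply swap_apply_of_ne_of_ne
    · intro e
      apply hn' (n - (p + 1)) (by omega)
      have : (σ ^ (n - (p + 1))) a = d := by
        conv_lhs => rw [← e]
        rw [← Perm.mul_apply, ← pow_add, Nat.sub_add_cancel hp, hn]
      rw [this]
      exact hd
    · intro e
      apply hdd
      refine fwd_unique (a := b) ⟨hd, n - (p + 1), ?_, ?_⟩ hb
      · rw [← e, ← Perm.mul_apply, ← pow_add, Nat.sub_add_cancel hp, hn]
      · intro q hq
        rw [← e, ← Perm.mul_apply, ← pow_add]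
        exact hn' _ (by omega)

lemma fwd_swap {σ : Perm V} {D : Finset V} {a b d d' : V} (hdd : d ≠ d') (ha : Fwd σ D a d)
    (hb : Fwd σ D b d') : Fwd (swap a b * σ) D a d := by
  obtain ⟨hd, n, hn, hn'⟩ := ha
  refine ⟨hd, n, ?_, fun p hp => ?_⟩
  · rw [pow_eq hdd hb hd hn hn' n le_rfl, hn]
  · rw [pow_eq hdd hb hd hn hn' p hp.le]
    exact hn' p hp

lemma sep_swap {σ : Perm V} {D : Finset V} {a b : V} (h : Sep σ D a b) :
    Sep (swap a b * σ) D a b := by
  obtain ⟨ha, hb, d, d', hdd, h1, h2⟩ := h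
  refine ⟨ha, hb, d, d', hdd, fwd_swap hdd h1 h2, ?_⟩
  rw [swap_comm]
  exact fwd_swap hdd.symm h2 h1

end sep

lemma ind_swap {V : Type} [Fintype V] [DecidableEq V] {σ : Perm V} {k : ℕ} {z : Fin k → V}
    (hz : Function.Injective z) (i j : Fin k) {π : Perm (Fin k)} (h : Ind σ z π) :
    Ind (swap (z i) (z j) * σ) z (swap i j * π) := by
  intro l
  obtain ⟨n, hn⟩ := h l
  have h1 : FirstRet z σ l (π l) n := hn
  exact ⟨n, h1.swap (i := i) (j := j) hz⟩

theorem ind : S_IND := by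
  intro V _ _ σ k z i j hz _
  refine ⟨fun π => ⟨fun h => ind_swap hz i j h, fun h => ?_⟩, fun D h => sep_swap h⟩
  have h1 := ind_swap hz i j h
  rwa [swap_mul_self_mul, swap_mul_self_mul] at h1

end Pool.Agent.Y436.RS
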